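import Mathlib

/-!
# An inequality for the values of the factors of a polynomial (job AN/2), only Mathlib
-/

set_option autoImplicit false

open Polynomial

namespace Pool.Agent.N568.AN

lemma one_le_mahler {P : ℂ[X]} (h : P.eval 0 = 1) : 1 ≤ P.mahlerMeasure := by
  have h1 := P.norm_coeff_le_choose_mul_mahlerMeasure 0
  rw [coeff_zero_eq_eval_zero, h, norm_one, Nat.choose_zero_right, Nat.cast_one, one_mul] at h1
  exact h1

lemma norm_eval_le (P : ℂ[X]) (w : ℂ) :
    ‖P.eval w‖ ≤ (1 + ‖w‖) ^ P.natDegree * P.mahlerMeasure := by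
  rw [eval_eq_sum_range]
  refine (norm_sum_le _ _).trans ?_
  have h1 : (1 + ‖w‖) ^ P.natDegree * P.mahlerMeasure =
      ∑ i ∈ Finset.range (P.natDegree + 1), (P.natDegree.choose i * P.mahlerMeasure) * ‖w‖ ^ i := by
    rw [add_comm 1 ‖w‖, add_pow, Finset.sum_mul]
    apply Finset.sum_congr rfl
    intro i _
    rw [one_pow]
    ring
  rw [h1]
  apply Finset.sum_le_sum
  intro i _
  rw [norm_mul, norm_pow]
  exact mul_le_mul_of_nonneg_right (P.norm_coeff_le_choose_mul_mahlerMeasure i) (by positivity)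

/-- the shift by `b` -/
noncomputable def sh (b : ℂ) (P : ℂ[X]) : ℂ[X] := P.comp (X + C b)

lemma sh_deg (b : ℂ) (P : ℂ[X]) : (sh b P).natDegree = P.natDegree := by
  unfold sh
  rw [natDegree_comp, natDegree_X_add_C, mul_one]

lemma sh_eval (b : ℂ) (P : ℂ[X]) (w : ℂ) : (sh b P).eval w = P.eval (w + b) := by
  unfold sh
  rw [eval_comp, eval_add, eval_X, eval_C]

lemma sh_mul (b : ℂ) (P Q : ℂ[X]) : sh b (P * Q) = sh b P * sh b Q := mul_comp _ _ _

lemma sh_prod (b : ℂ) {ι : Type} (T : Finset ι) (A : ι → ℂ[X]) :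
    sh b (∏ t ∈ T, A t) = ∏ t ∈ T, sh b (A t) := by
  unfold sh
  exact prod_comp _ _ _

lemma mahler_prod {ι : Type} (T : Finset ι) (A : ι → ℂ[X]) :
    (∏ t ∈ T, A t).mahlerMeasure = ∏ t ∈ T, (A t).mahlerMeasure := by
  classical
  induction T using Finset.induction_on with
  | empty => simp
  | insert t T ht ih => rw [Finset.prod_insert ht, Finset.prod_insert ht, mahlerMeasure_mul, ih]

lemma max_le (b z : ℂ) {P : ℂ[X]} (h : P.eval b = 1) :
    max 1 ‖P.eval z‖ ≤ (1 + ‖z - b‖) ^ P.natDegree * (sh b P).mahlerMeasure := by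
  have h1 : 1 ≤ (sh b P).mahlerMeasure := one_le_mahler (by rw [sh_eval, zero_add, h])
  apply _root_.max_le
  · exact one_le_mul_of_one_le_of_one_le (one_le_pow₀ (by linarith [norm_nonneg (z - b)])) h1
  · have h2 := norm_eval_le (sh b P) (z - b)
    rw [sh_eval, sub_add_cancel, sh_deg] at h2
    exact h2

lemma mahler_le {q : ℕ} {P : ℂ[X]} (h : P.natDegree ≤ q) :
    P.mahlerMeasure ≤ ∑ i ∈ Finset.range (q + 1), ‖P.coeff i‖ := by
  refine P.mahlerMeasure_le_sum_norm_coeff.trans ?_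
  rw [Polynomial.sum_def]
  apply Finset.sum_le_sum_of_subset_of_nonneg
  · intro i hi
    rw [Finset.mem_range]
    have := le_natDegree_of_mem_supp i hi
    omega
  · intro i _ _
    exact norm_nonneg _

theorem poly_ineq_aux (q D : ℕ) (a : Fin (q + 1) → ℂ) (j0 : Fin (q + 1)) (z : ℂ)
    (ha : Function.Injective a) (hD : D ≤ q) :
    ∃ C : ℝ, 0 ≤ C ∧ ∀ (ι : Type) (T : Finset ι) (A : ι → ℂ[X]) (B : ℂ[X]),
      ((∏ t ∈ T, A t) * B).natDegree ≤ D → (∀ t ∈ T, (A t).eval (a j0) = 1) →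
      B.eval (a j0) = 1 →
      ∃ j, ∏ t ∈ T, max 1 ‖(A t).eval z‖ ≤ C * ‖((∏ t ∈ T, A t) * B).eval (a j)‖ := by
  set b := a j0 with hb
  set C1 : ℝ := ∑ i ∈ Finset.range (q + 1), ∑ j : Fin (q + 1),
    ‖(sh b (Lagrange.basis Finset.univ a j)).coeff i‖ with hC1
  have hC1' : 0 ≤ C1 := Finset.sum_nonneg fun i _ => Finset.sum_nonneg fun j _ => norm_nonneg _
  have hc : 1 ≤ 1 + ‖z - b‖ := by linarith [norm_nonneg (z - b)]
  refine ⟨(1 + ‖z - b‖) ^ D * C1, by positivity, ?_⟩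
  intro ι T A B hdeg hA hB
  set G := (∏ t ∈ T, A t) * B with hG
  obtain ⟨j, -, hj⟩ := Finset.exists_max_image Finset.univ (fun j => ‖G.eval (a j)‖)
    ⟨j0, Finset.mem_univ _⟩
  refine ⟨j, ?_⟩
  -- nonzero
  have hAne : ∀ t ∈ T, A t ≠ 0 := by
    intro t ht h0
    have := hA t ht
    rw [h0, eval_zero] at this
    exact zero_ne_one this
  have hBne : B ≠ 0 := by
    intro h0
    rw [h0, eval_zero] at hB
    exact zero_ne_one hB
  have hprod : ∏ t ∈ T, A t ≠ 0 := Finset.prod_ne_zero_iff.2 hAne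
  have hGd : G.natDegree = ∑ t ∈ T, (A t).natDegree + B.natDegree := by
    rw [hG, natDegree_mul hprod hBne, natDegree_prod _ _ hAne]
  -- the product
  have s1 : ∏ t ∈ T, max 1 ‖(A t).eval z‖ ≤
      (1 + ‖z - b‖) ^ (∑ t ∈ T, (A t).natDegree) * (sh b (∏ t ∈ T, A t)).mahlerMeasure := by
    rw [sh_prod, mahler_prod, ← Finset.prod_pow_eq_pow_sum, ← Finset.prod_mul_distrib]
    apply Finset.prod_le_prod
    · intro t _
      positivity
    · intro t ht
      exact max_le b z (hA t ht)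
  have hMB : 1 ≤ (sh b B).mahlerMeasure := one_le_mahler (by rw [sh_eval, zero_add, hB])
  have s2 : (sh b (∏ t ∈ T, A t)).mahlerMeasure ≤ (sh b G).mahlerMeasure := by
    rw [hG, sh_mul, mahlerMeasure_mul]
    exact le_mul_of_one_le_right (mahlerMeasure_nonneg _) hMB
  have s3 : (1 + ‖z - b‖) ^ (∑ t ∈ T, (A t).natDegree) ≤ (1 + ‖z - b‖) ^ D :=
    pow_le_pow_right₀ hc (by omega)
  -- interpolation
  have hdq : G.natDegree ≤ q := hdeg.trans hD
  have hint : G = ∑ j : Fin (q + 1), C (G.eval (a j)) * Lagrange.basis Finset.univ a j := by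
    have h1 := Lagrange.eq_interpolate (s := Finset.univ) (v := a) (f := G) ha.injOn (by
      rw [Finset.card_univ, Fintype.card_fin]
      refine lt_of_le_of_lt degree_le_natDegree ?_
      exact_mod_cast Nat.lt_succ_of_le hdq)
    rw [Lagrange.interpolate_apply] at h1
    exact h1
  have hco : ∀ i, ‖(sh b G).coeff i‖ ≤ ‖G.eval (a j)‖ *
      ∑ k : Fin (q + 1), ‖(sh b (Lagrange.basis Finset.univ a k)).coeff i‖ := by
    intro i
    have h1 : sh b G = ∑ k : Fin (q + 1), C (G.eval (a k)) *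
        sh b (Lagrange.basis Finset.univ a k) := by
      conv_lhs => rw [hint]
      unfold sh
      rw [Polynomial.sum_comp]
      apply Finset.sum_congr rfl
      intro k _
      rw [mul_comp, C_comp]
    rw [h1, finsetSum_coeff, Finset.mul_sum]
    refine (norm_sum_le _ _).trans (Finset.sum_le_sum ?_)
    intro k _
    rw [coeff_C_mul, norm_mul]
    exact mul_le_mul_of_nonneg_right (hj k (Finset.mem_univ _)) (norm_nonneg _)
  have s4 : (sh b G).mahlerMeasure ≤ C1 * ‖G.eval (a j)‖ := by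
    refine (mahler_le (q := q) (by rw [sh_deg]; exact hdq)).trans ?_
    refine (Finset.sum_le_sum fun i _ => hco i).trans ?_
    rw [← Finset.mul_sum, mul_comm]
  have hM0 : 0 ≤ (sh b (∏ t ∈ T, A t)).mahlerMeasure := mahlerMeasure_nonneg _
  calc ∏ t ∈ T, max 1 ‖(A t).eval z‖
      ≤ (1 + ‖z - b‖) ^ (∑ t ∈ T, (A t).natDegree) * (sh b (∏ t ∈ T, A t)).mahlerMeasure := s1
    _ ≤ (1 + ‖z - b‖) ^ D * (C1 * ‖G.eval (a j)‖) :=
        mul_le_mul s3 (s2.trans s4) hM0 (by positivity)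
    _ = (1 + ‖z - b‖) ^ D * C1 * ‖G.eval (a j)‖ := by ring

end Pool.Agent.N568.AN
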