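import Pool.Agent.N115.AN.Stm
import Pool.Agent.N568.AN.PolyIneqAux

/-!
# Job AN/2: an inequality for the values of the factors of a polynomial
-/

set_option autoImplicit false

namespace Pool.Agent.N568.AN

theorem poly_ineq : Pool.Agent.N115.AN.PolyIneq :=
  fun q D a j0 z ha hD => poly_ineq_aux q D a j0 z ha hD

end Pool.Agent.N568.AN
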